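import Mathlib

set_option autoImplicit false

namespace Pool.Agent.Results.MP_493565_co.Counter

open Classical

/-- the colours available after `t` rounds -/
def Col (k : ℕ) (C : Type) : ℕ → Type
  | 0 => (Fin k → Fin k → Prop × Prop) × (Fin k → C)
  | t + 1 => Col k C t × Multiset (Fin k → Col k C t)

/-- the colour of a `k`-tuple after `t` rounds -/
noncomputable def wl {V C : Type} [Fintype V] (k : ℕ) (G : SimpleGraph V) (c : V → C) :
    (t : ℕ) → (Fin k → V) → Col k C t
  | 0, S => (fun i j => (S i = S j, G.Adj (S i) (S j)), fun i => c (S i))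
  | t + 1, S => (wl k G c t S,
      Finset.univ.val.map (fun x : V => fun i => wl k G c t (Function.update S i x)))

/-- iterated multisets -/
def Mul : ℕ → Type → Type
  | 0, D => D
  | j + 1, D => Mul j (Multiset D)

/-- the vertex colouring obtained from a colouring of `(j+1)`-tuples by colouring downward -/
def down {V : Type} [Fintype V] : (j : ℕ) → (D : Type) → ((Fin (j + 1) → V) → D) → V → Mul j D
  | 0, _, f => fun x => f (fun _ => x)
  | j + 1, D, f => down j (Multiset D)
      (fun S => Finset.univ.val.map (fun y : V => f (Fin.snoc S y)))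

/-- after `t` rounds of the `(j+1)`-dimensional method the vertex classes are the orbits -/
def Refines {V C : Type} [Fintype V] (j t : ℕ) (G : SimpleGraph V) (c : V → C) : Prop :=
  ∀ u w : V, down j _ (wl (j + 1) G c t) u = down j _ (wl (j + 1) G c t) w ↔
    ∃ ψ : G ≃g G, (∀ x, c (ψ x) = c x) ∧ ψ u = w

/-- the colouring `c` with the vertex `v` given a new colour -/
noncomputable def indiv {V C : Type} (c : V → C) (v : V) : V → Option C :=
  fun x => if x = v then none else some (c x)

section General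

variable {V C : Type} [Fintype V] (G : SimpleGraph V) (c : V → C)

def Strat (k : ℕ) (P : Finset (V × V) → Prop) : Prop :=
  (∀ A B, P B → A ⊆ B → P A) ∧
  (∀ A, P A → ∀ p ∈ A, c p.1 = c p.2 ∧ ∀ q ∈ A, (p.1 = q.1 ↔ p.2 = q.2) ∧
    (G.Adj p.1 q.1 ↔ G.Adj p.2 q.2)) ∧
  ∀ A, P A → A.card ≤ k → ∃ π : V ≃ V, ∀ x, P (insert (x, π x) A)

noncomputable def prs {k : ℕ} (S S' : Fin k → V) : Finset (V × V) :=
  Finset.univ.image (fun i => (S i, S' i))

omit [Fintype V] in
theorem prs_card {k : ℕ} (S S' : Fin k → V) : (prs S S').card ≤ k :=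
  Finset.card_image_le.trans (by simp)

omit [Fintype V] in
theorem mem_prs {k : ℕ} (S S' : Fin k → V) (i : Fin k) : (S i, S' i) ∈ prs S S' :=
  Finset.mem_image.2 ⟨i, Finset.mem_univ _, rfl⟩

theorem map_eq {D : Type} (f g : V → D) (π : V ≃ V) (h : ∀ x, f x = g (π x)) :
    Finset.univ.val.map f = Finset.univ.val.map g := by
  have h1 : (Finset.univ.val : Multiset V).map π = Finset.univ.val :=
    Multiset.map_univ_val_equiv π
  conv_rhs => rw [← h1, Multiset.map_map]
  exact Multiset.map_congr rfl (fun x _ => h x)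

theorem wl_eq {k : ℕ} {P : Finset (V × V) → Prop} (h : Strat G c k P) :
    ∀ (t : ℕ) (S S' : Fin k → V), P (prs S S') → wl k G c t S = wl k G c t S'
  | 0, S, S', hP => by
    have h1 := h.2.1 _ hP
    refine Prod.ext ?_ ?_
    · funext i j
      have h2 := (h1 _ (mem_prs S S' i)).2 _ (mem_prs S S' j)
      exact Prod.ext (propext h2.1) (propext h2.2)
    · funext i
      exact (h1 _ (mem_prs S S' i)).1
  | t + 1, S, S', hP => by
    obtain ⟨π, hπ⟩ := h.2.2 _ hP (prs_card S S')
    refine Prod.ext (wl_eq h t S S' hP) (map_eq _ _ π (fun x => ?_))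
    funext i
    refine wl_eq h t _ _ (h.1 _ _ (hπ x) ?_)
    intro p hp
    obtain ⟨j, -, rfl⟩ := Finset.mem_image.1 hp
    by_cases e : j = i
    · subst e
      simp
    · rw [Function.update_of_ne e, Function.update_of_ne e]
      exact Finset.mem_insert_of_mem (mem_prs S S' j)

theorem down_eq {k : ℕ} {P : Finset (V × V) → Prop} (h : Strat G c k P) :
    ∀ (j : ℕ) (D : Type) (f : (Fin (j + 1) → V) → D), j ≤ k →
      (∀ S S', P (prs S S') → f S = f S') → ∀ u w, P {(u, w)} → down j D f u = down j D f w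
  | 0, D, f, _, hf, u, w, hP => by
    refine hf _ _ (h.1 _ _ hP ?_)
    intro p hp
    obtain ⟨j, -, rfl⟩ := Finset.mem_image.1 hp
    simp
  | j + 1, D, f, hj, hf, u, w, hP => by
    refine down_eq h j _ _ (by omega) (fun S S' hS => ?_) u w hP
    obtain ⟨π, hπ⟩ := h.2.2 _ hS ((prs_card S S').trans hj)
    refine map_eq _ _ π (fun x => hf _ _ (h.1 _ _ (hπ x) ?_))
    intro p hp
    obtain ⟨i, -, rfl⟩ := Finset.mem_image.1 hp
    induction i using Fin.lastCases with
    | last => simp
    | cast i =>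
      rw [Fin.snoc_castSucc, Fin.snoc_castSucc]
      exact Finset.mem_insert_of_mem (mem_prs S S' i)

theorem wl_col {k : ℕ} : ∀ (t : ℕ) (S S' : Fin k → V), wl k G c t S = wl k G c t S' →
    ∀ i, c (S i) = c (S' i)
  | 0, _, _, h, i => congrFun (congrArg Prod.snd h) i
  | t + 1, S, S', h, i => wl_col t S S' (congrArg Prod.fst h) i

theorem down_col : ∀ (j : ℕ) (D : Type) (f : (Fin (j + 1) → V) → D),
      (∀ S S', f S = f S' → c (S 0) = c (S' 0)) → ∀ u w, down j D f u = down j D f w → c u = c w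
  | 0, _, _, hf, _, _, h => hf _ _ h
  | j + 1, D, f, hf, u, w, h => by
    refine down_col j _ _ (fun S S' hS => ?_) u w h
    have h1 : f (Fin.snoc S u) ∈ Finset.univ.val.map (fun y : V => f (Fin.snoc S y)) :=
      Multiset.mem_map.2 ⟨u, Finset.mem_univ _, rfl⟩
    have hS' : Finset.univ.val.map (fun y : V => f (Fin.snoc S y)) =
      Finset.univ.val.map (fun y : V => f (Fin.snoc S' y)) := hS
    rw [hS'] at h1
    obtain ⟨y, -, e⟩ := Multiset.mem_map.1 h1
    have h2 := hf _ _ e
    rw [show (0 : Fin (j + 1 + 1)) = Fin.castSucc 0 from rfl, Fin.snoc_castSucc,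
      Fin.snoc_castSucc] at h2
    exact h2.symm

theorem aut_eq (j t : ℕ) (ψ : G ≃g G) (hψ : ∀ x, c (ψ x) = c x) (u : V) :
    down j _ (wl (j + 1) G c t) u = down j _ (wl (j + 1) G c t) (ψ u) := by
  have h : Strat G c (j + 1) (fun A => ∀ p ∈ A, p.2 = ψ p.1) := by
    refine ⟨fun A B hB hAB p hp => hB p (hAB hp), fun A hA p hp => ⟨?_, fun q hq => ⟨?_, ?_⟩⟩,
      fun A hA _ => ⟨ψ.toEquiv, fun x p hp => ?_⟩⟩
    · rw [hA p hp, hψ]
    · rw [hA p hp, hA q hq]; simp
    · rw [hA p hp, hA q hq, ψ.map_adj_iff]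
    · rcases Finset.mem_insert.1 hp with rfl | hp
      · rfl
      · exact hA p hp
  exact down_eq G c h j _ _ (by omega) (wl_eq G c h t) _ _ (by simp)

end General

section Example

variable {k : ℕ}

abbrev I (k : ℕ) := Fin (k + 3)
abbrev W (k : ℕ) := I k × (I k → ZMod 2)

def par (h : I k) (s : I k → ZMod 2) : ZMod 2 := ∑ j, s j + s h

theorem par_add (h : I k) (s m : I k → ZMod 2) : par h (s + m) = par h s + par h m := by
  simp only [par, Pi.add_apply, Finset.sum_add_distrib]
  ring

theorem two (a : ZMod 2) : a + a = 0 := by revert a; decide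

theorem par_single {h i : I k} (e : i ≠ h) (a : ZMod 2) : par h (Pi.single i a) = a := by
  simp [par, Pi.single_eq_of_ne e.symm]

def GG (k : ℕ) : SimpleGraph (W k) where
  Adj x y := x.1 ≠ y.1 ∧ x.2 y.1 = y.2 x.1
  symm := ⟨fun _ _ h => ⟨h.1.symm, h.2.symm⟩⟩
  loopless := ⟨fun _ h => h.1 rfl⟩

def cc (x : W k) : I k × ZMod 2 := (x.1, if x.1 = 0 ∨ x.1 = 1 then 0 else par x.1 x.2)

def phi (M : I k → I k → ZMod 2) : W k ≃ W k where
  toFun x := (x.1, x.2 + M x.1)
  invFun x := (x.1, x.2 - M x.1)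
  left_inv x := by simp
  right_inv x := by simp

theorem phi_adj {M : I k → I k → ZMod 2} (hM : ∀ i j, M i j = M j i) (x y : W k) :
    (GG k).Adj (phi M x) (phi M y) ↔ (GG k).Adj x y := by
  show (x.1 ≠ y.1 ∧ x.2 y.1 + M x.1 y.1 = y.2 x.1 + M y.1 x.1) ↔ (x.1 ≠ y.1 ∧ x.2 y.1 = y.2 x.1)
  rw [hM x.1 y.1, add_left_inj]

theorem phi_col (M : I k → I k → ZMod 2) (x : W k)
    (h : x.1 ≠ 0 → x.1 ≠ 1 → par x.1 (M x.1) = 0) : cc (phi M x) = cc x := by
  show (x.1, if x.1 = 0 ∨ x.1 = 1 then 0 else par x.1 (x.2 + M x.1)) = cc x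
  unfold cc
  split_ifs with e
  · rfl
  · push Not at e
    rw [par_add, h e.1 e.2, add_zero]

theorem zero_ne_one' : (0 : I k) ≠ 1 := by
  intro h
  have := congrArg Fin.val h
  simp at this

theorem trans_cc (u w : W k) (h : cc u = cc w) :
    ∃ ψ : GG k ≃g GG k, (∀ x, cc (ψ x) = cc x) ∧ ψ u = w := by
  obtain ⟨h0, s⟩ := u
  obtain ⟨h1, s'⟩ := w
  have e1 : h0 = h1 := congrArg Prod.fst h
  subst e1
  have e2 := congrArg Prod.snd h
  simp only [cc] at e2
  obtain ⟨g, hg, hg'⟩ : ∃ g : I k, g ≠ h0 ∧ (g = 0 ∨ g = 1) := by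
    by_cases e : h0 = 0
    · exact ⟨1, by rw [e]; exact zero_ne_one'.symm, Or.inr rfl⟩
    · exact ⟨0, fun e' => e e'.symm, Or.inl rfl⟩
  let a : I k → ZMod 2 := s' - s
  let M : I k → I k → ZMod 2 := fun i j =>
    if i = h0 then a j else if j = h0 then a i else if i = j then 0 else
      if i = g then a j else if j = g then a i else 0
  have hM : ∀ i j, M i j = M j i := by
    intro i j
    simp only [M]
    by_cases e : i = j
    · rw [e]
    · have e' : ¬ j = i := fun x => e x.symm
      split_ifs <;> simp_all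
  refine ⟨⟨phi M, fun {x y} => phi_adj hM x y⟩, fun x => phi_col M x (fun n0 n1 => ?_), ?_⟩
  · by_cases e : x.1 = h0
    · have e3 : M x.1 = a := by funext j; simp [M, e]
      rw [e3, e]
      rw [e] at n0 n1
      rw [if_neg (by tauto), if_neg (by tauto)] at e2
      have e4 := par_add h0 s a
      rw [show s + a = s' by simp [a], ← e2] at e4
      simpa using e4
    · have e4 : x.1 ≠ g := by rcases hg' with r | r <;> rw [r] <;> assumption
      have e3 : M x.1 = Pi.single h0 (a x.1) + Pi.single g (a x.1) := by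
        funext j
        simp only [M, Pi.add_apply, Pi.single_apply, if_neg e, if_neg e4]
        split_ifs <;> simp_all
      rw [e3, par_add, par_single (Ne.symm e), par_single (Ne.symm e4), two]
  · show (h0, s + M h0) = (h0, s')
    have e3 : M h0 = a := by funext j; simp [M]
    rw [e3]
    simp [a]

noncomputable def cv : W k → Option (I k × ZMod 2) := indiv cc (0, 0)

def EE (h h' : I k) (ρ : ZMod 2) : I k → I k → ZMod 2 := fun i j =>
  if (i = h ∧ j = h') ∨ (i = h' ∧ j = h) then ρ else 0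

theorem EE_symm (h h' : I k) (ρ : ZMod 2) (i j : I k) : EE h h' ρ i j = EE h h' ρ j i := by
  unfold EE
  congr 1
  exact propext (by tauto)

theorem EE_off {h h' i : I k} (ρ : ZMod 2) (e : i ≠ h) (e' : i ≠ h') : EE h h' ρ i = 0 := by
  funext j
  simp [EE, e, e']

theorem EE_on {h h' : I k} (ρ : ZMod 2) (e : h ≠ h') : EE h h' ρ h = Pi.single h' ρ := by
  funext j
  simp [EE, e, Pi.single_apply]

def PP (A : Finset (W k × W k)) : Prop :=
  ∃ (M : I k → I k → ZMod 2) (h : I k), (∀ i j, M i j = M j i) ∧ M 0 = 0 ∧ h ≠ 0 ∧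
    (∀ j, j ≠ 1 → j ≠ h → par j (M j) = 0) ∧ ∀ p ∈ A, p.1.1 ≠ h ∧ p.2 = phi M p.1

theorem strat : Strat (GG k) cv k PP := by
  refine ⟨?_, ?_, ?_⟩
  · rintro A B ⟨M, h, h1, h2, h3, h4, h5⟩ hAB
    exact ⟨M, h, h1, h2, h3, h4, fun p hp => h5 p (hAB hp)⟩
  · rintro A ⟨M, h, h1, h2, h3, h4, h5⟩ p hp
    refine ⟨?_, fun q hq => ⟨?_, ?_⟩⟩
    · have e0 : phi M (0, 0) = (0, 0) := by
        show ((0 : I k), 0 + M 0) = (0, 0)
        rw [h2, add_zero]
      have e1 : phi M p.1 = (0, 0) ↔ p.1 = (0, 0) := by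
        conv_lhs => rw [← e0]
        exact (phi M).apply_eq_iff_eq
      rw [(h5 p hp).2]
      unfold cv indiv
      rw [phi_col M p.1 (fun _ n1 => h4 _ n1 (h5 p hp).1)]
      by_cases e2 : p.1 = (0, 0)
      · rw [if_pos e2, if_pos (e1.2 e2)]
      · rw [if_neg e2, if_neg (fun x => e2 (e1.1 x))]
    · rw [(h5 p hp).2, (h5 q hq).2]; simp
    · rw [(h5 p hp).2, (h5 q hq).2, phi_adj h1]
  · rintro A ⟨M, h, h1, h2, h3, h4, h5⟩ hA
    obtain ⟨h', hh⟩ : ∃ h', h' ∉ insert 0 (insert h (A.image (fun p => p.1.1))) := by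
      by_contra hc
      push Not at hc
      have c1 := Finset.card_le_card (show (Finset.univ : Finset (I k)) ⊆ _ from fun x _ => hc x)
      have c2 := Finset.card_insert_le 0 (insert h (A.image (fun p => p.1.1)))
      have c3 := Finset.card_insert_le h (A.image (fun p => p.1.1))
      have c4 : (A.image (fun p => p.1.1)).card ≤ A.card := Finset.card_image_le
      simp only [Finset.card_univ, Fintype.card_fin] at c1
      omega
    simp only [Finset.mem_insert, Finset.mem_image, not_or, not_exists, not_and] at hh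
    obtain ⟨g1, g2, g3⟩ := hh
    let M' : I k → I k → ZMod 2 := M + EE h h' (par h (M h))
    let N : I k → I k → ZMod 2 := fun i => if i = h then M' i else M i
    refine ⟨phi N, fun x => ?_⟩
    by_cases e : x.1 = h
    · refine ⟨M', h', fun i j => ?_, ?_, g1, fun j n1 n2 => ?_, fun p hp => ?_⟩
      · simp only [M', Pi.add_apply, h1 i j, EE_symm h h' _ i j]
      · simp only [M', Pi.add_apply, h2, EE_off _ h3.symm (Ne.symm g1), add_zero]
      · by_cases e' : j = h
        · subst e'
          simp only [M', Pi.add_apply]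
          rw [par_add, EE_on _ n2, par_single (Ne.symm n2), two]
        · simp only [M', Pi.add_apply]
          rw [EE_off _ e' n2, add_zero, h4 j n1 e']
      · rcases (@Finset.mem_insert _ (_) _ _ _).1 hp with rfl | hp
        · refine ⟨fun e' => g2 (e'.symm.trans e), ?_⟩
          show (x.1, x.2 + N x.1) = (x.1, x.2 + M' x.1)
          simp only [N, if_pos e]
        · refine ⟨g3 p hp, ?_⟩
          rw [(h5 p hp).2]
          show (p.1.1, p.1.2 + M p.1.1) = (p.1.1, p.1.2 + M' p.1.1)
          simp only [M', Pi.add_apply]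
          rw [EE_off _ (h5 p hp).1 (g3 p hp), add_zero]
    · refine ⟨M, h, h1, h2, h3, h4, fun p hp => ?_⟩
      rcases (@Finset.mem_insert _ (_) _ _ _).1 hp with rfl | hp
      · refine ⟨e, ?_⟩
        show (x.1, x.2 + N x.1) = (x.1, x.2 + M x.1)
        simp only [N, if_neg e]
      · exact h5 p hp

theorem sum_par (T : I k → I k → ZMod 2) (hT : ∀ i j, i ≠ j → T i j = T j i) :
    ∑ i, par i (T i) = 0 := by
  have h1 : ∀ i, par i (T i) = ∑ j, if i = j then 0 else T i j := by
    intro i
    have : ∀ j, (if i = j then 0 else T i j) = T i j + if i = j then T i j else 0 := by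
      intro j
      split_ifs
      · rw [two]
      · rw [add_zero]
    simp only [this, Finset.sum_add_distrib, Finset.sum_ite_eq, Finset.mem_univ, if_true, par]
  simp only [h1]
  rw [← Finset.sum_product']
  refine Finset.sum_involution (fun p _ => p.swap) (fun p _ => ?_) (fun p _ hp e => ?_)
    (fun p _ => by simp) (fun p _ => by simp)
  · by_cases e : p.1 = p.2
    · simp [e]
    · have e' : ¬ p.2 = p.1 := fun x => e x.symm
      simp only [Prod.fst_swap, Prod.snd_swap, if_neg e, if_neg e', hT _ _ e, two]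
  · apply hp
    have : p.2 = p.1 := congrArg Prod.fst e
    simp [this]

theorem not_orbit (w : W k) (hw : par 1 w.2 = 1) :
    ¬ ∃ ψ : GG k ≃g GG k, (∀ x, cv (ψ x) = cv x) ∧ ψ (1, 0) = w := by
  rintro ⟨ψ, h1, h2⟩
  have e0 : ψ (0, 0) = (0, 0) := by
    have := h1 (0, 0)
    unfold cv indiv at this
    by_contra hc
    simp [hc] at this
  have e1 : ∀ i : I k, cc (ψ (i, 0)) = cc (i, 0) := by
    intro i
    by_cases e : i = 0
    · rw [e, e0]
    · have := h1 (i, 0)
      unfold cv indiv at this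
      have n1 : ((i, 0) : W k) ≠ (0, 0) := fun x => e (congrArg Prod.fst x)
      rw [if_neg n1] at this
      split_ifs at this
      simpa using this
  have e2 : ∀ i : I k, (ψ (i, 0)).1 = i := fun i => congrArg Prod.fst (e1 i)
  have e3 := sum_par (fun i => (ψ (i, 0)).2) (fun i j hij => by
    have : (GG k).Adj (ψ (i, 0)) (ψ (j, 0)) := ψ.map_adj_iff.2 ⟨hij, rfl⟩
    have h3 := this.2
    rwa [e2, e2] at h3)
  rw [Finset.sum_eq_single 1, h2, hw] at e3
  · exact absurd e3 (by decide)
  · intro i _ hi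
    by_cases e : i = 0
    · rw [e, e0]; simp [par]
    · have h3 := congrArg Prod.snd (e1 i)
      simp only [cc, e2, e, hi, or_self, if_false] at h3
      rw [h3]; simp [par]
  · simp

end Example

theorem result (j : ℕ) : ∃ (V C : Type) (_ : Fintype V) (G : SimpleGraph V) (c : V → C) (v : V),
    (∀ t, Refines j t G c) ∧
    ∀ t, ¬ Refines j t G (indiv c v) := by
  refine ⟨W (j + 1), _, inferInstance, GG _, cc, (0, 0), fun t u w => ⟨fun h => ?_, ?_⟩,
    fun t h => ?_⟩
  · exact trans_cc u w (down_col cc j _ _ (fun S S' e => wl_col _ _ t S S' e 0) u w h)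
  · rintro ⟨ψ, h1, rfl⟩
    exact aut_eq _ _ j t ψ h1 u
  · have n12 : (1 : I (j + 1)) ≠ 2 := by
      intro h; have := congrArg Fin.val h; simp [Nat.mod_eq_of_lt] at this
    have n02 : (0 : I (j + 1)) ≠ 2 := by
      intro h; have := congrArg Fin.val h; simp [Nat.mod_eq_of_lt] at this
    have hP : PP {(((1, 0) : W (j + 1)), phi (EE 1 2 1) (1, 0))} := by
      refine ⟨EE 1 2 1, 2, EE_symm _ _ _, EE_off _ zero_ne_one' n02, n02.symm,
        fun i n1 n2 => ?_, fun p hp => ?_⟩
      · rw [EE_off _ n1 n2]; simp [par]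
      · rw [Finset.mem_singleton.1 hp]
        exact ⟨n12, rfl⟩
    have h1 := down_eq (GG _) cv strat j _ _ (by omega) (wl_eq (GG _) cv strat t) _ _ hP
    refine not_orbit _ ?_ ((h _ _).1 h1)
    show par 1 (0 + EE 1 2 1 1) = 1
    rw [zero_add, EE_on _ n12, par_single n12.symm]

end Pool.Agent.Results.MP_493565_co.Counter
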